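import Mathlib
import Pool.Agent.Lib.MP_d8b6c2_an.C.Final

/-!
# MP_d8b6c2_an: not all ranks occur in simple C*-algebras

The definitions (`QT`, `AffineOnQT`, `Stabilization`, `IsTracialState`, `IsRankAt`) are in
`Pool/Agent/Lib/MP_d8b6c2_an/C/Def.lean`.
-/

set_option autoImplicit false

namespace Pool.Agent.Results.MP_d8b6c2_an.NotAllRanks

open Pool.Agent.MP_d8b6c2_an
open scoped ENNReal

theorem result :
    ∃ (A : Type) (_ : CStarAlgebra A),
      -- `A` is simple, separable, stably finite and infinite-dimensional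
      IsSimpleRing A ∧ TopologicalSpace.SeparableSpace A ∧
      (∀ (n : ℕ) (x y : Matrix (Fin n) (Fin n) A), x * y = 1 → y * x = 1) ∧
      ¬ FiniteDimensional ℂ A ∧
      -- there is a model `B` of `A ⊗ 𝒦`
      (∃ (B : Type) (_ : NonUnitalCStarAlgebra B) (_ : PartialOrder B) (_ : StarOrderedRing B),
        Nonempty (Stabilization A B)) ∧
      -- `f` is continuous and affine on `QT A` with values in `(0, 1]`
      ∃ f : QT A → ℝ≥0∞, Continuous f ∧ AffineOnQT f ∧ (∀ τ, 0 < f τ) ∧ (∀ τ, f τ ≤ 1) ∧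
        -- and is not the rank of any positive element of any model `B` of `A ⊗ 𝒦`
        ∀ (B : Type) [NonUnitalCStarAlgebra B] [PartialOrder B] [StarOrderedRing B]
          (st : Stabilization A B) (b : B), 0 ≤ b →
          ∃ τ : QT A, IsTracialState τ.1 ∧ Continuous τ.1 ∧ ¬ IsRankAt st τ.1 b (f τ) :=
  not_all_ranks

end Pool.Agent.Results.MP_d8b6c2_an.NotAllRanks
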